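import Pool.Agent.Q98.Game.Main

/-!
# The achievement game: an odd structure class without even options of lower deficiency

The game is `GEN(G)`: the players select elements of the finite group `G` until the selected
elements generate `G`.
-/

set_option autoImplicit false

namespace Pool.Agent.Results.MP_ecc06a_al.NoEvenOption

variable {G : Type} [Group G]

/-- `⌈P⌉`: the intersection of the maximal subgroups of `G` which contain `P`
(it is `G` if there are none) -/
def hull (P : Set G) : Subgroup G :=
  sInf {M : Subgroup G | IsCoatom M ∧ P ⊆ (M : Set G)}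

/-- the deficiency of `S`: the least size of a set `Q` such that `S ∪ Q` generates `G` -/
noncomputable def deficiency (S : Set G) : ℕ :=
  sInf {n : ℕ | ∃ Q : Finset G, Q.card = n ∧ Subgroup.closure (S ∪ (Q : Set G)) = ⊤}

/-- a position of the game: the empty set, or a set `P` with an element `g` (the one which was
selected last) such that `P ∖ {g}` does not generate `G` -/
def IsPosition (P : Set G) : Prop :=
  P = ∅ ∨ ∃ g ∈ P, Subgroup.closure (P \ {g}) ≠ ⊤

/-- there is a structure class `X_I` -/
def IsClass (I : Subgroup G) : Prop := ∃ P : Set G, IsPosition P ∧ hull P = I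

/-- `X_J` is an option of `X_I`: there is a nonterminal position `P` in `X_I` and `g ∉ P` such
that `P ∪ {g}` is in `X_J` -/
def IsOption (I J : Subgroup G) : Prop :=
  ∃ P : Set G, IsPosition P ∧ Subgroup.closure P ≠ ⊤ ∧ hull P = I ∧
    ∃ g, g ∉ P ∧ hull (insert g P) = J

/-- It is not true that in every finite group of even order every odd structure class of
deficiency `k + 1` has an even option of deficiency `k`. -/
theorem result : ¬ ∀ (G : Type) [Group G] [Finite G], Even (Nat.card G) →
    ∀ (k : ℕ) (I : Subgroup G), IsClass I → Odd (Nat.card I) →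
      deficiency (I : Set G) = k + 1 →
        ∃ L : Subgroup G, IsOption I L ∧ Even (Nat.card L) ∧ deficiency (L : Set G) = k := by
  intro hall
  have h2 : Fact (Nat.Prime 2) := ⟨Nat.prime_two⟩
  have hF : Nat.card (GaloisField 2 6) = 64 := by
    rw [GaloisField.card 2 6 (by norm_num)]; norm_num
  have hfin : Finite (GaloisField 2 6) := Nat.finite_of_card_ne_zero (by rw [hF]; norm_num)
  obtain ⟨β, hβ⟩ := IsCyclic.exists_generator (α := (GaloisField 2 6)ˣ)
  have hord : orderOf β = 63 := by
    rw [orderOf_eq_card_of_forall_mem_zpowers hβ, Nat.card_units, hF]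
  have h := hall (Q98.Game.affGroup β) Q98.Game.even_card 1 (hull ∅) ⟨∅, Or.inl rfl, rfl⟩
    (Q98.Game.odd_of_le hF hord (w := 0)
      (Q98.Game.hull_empty_le (Q98.Game.isCoatom_stab hF hord 0)))
    (Q98.Game.deficiency_hull hF hord)
  obtain ⟨L, ⟨P, -, -, hP, g, -, rfl⟩, heven, hd⟩ := h
  exact Q98.Game.no_option hF hord hP heven hd

end Pool.Agent.Results.MP_ecc06a_al.NoEvenOption
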